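import Mathlib

/-!
# Construction of the pair `(α, α₂)` and of the abscissa `x`
-/

set_option autoImplicit false

open Filter Topology

namespace Pool.Agent.Q3.BadA

/-- Nested intervals. -/
theorem nested (L U : ℕ → ℝ) (hL : ∀ j, L j ≤ L (j + 1)) (hU : ∀ j, U (j + 1) ≤ U j)
    (hLU : ∀ j, L j ≤ U j) : ∃ a : ℝ, ∀ j, L j ≤ a ∧ a ≤ U j := by
  have hLm : Monotone L := monotone_nat_of_le_succ hL
  have hUm : Antitone U := antitone_nat_of_succ_le hU
  have h := hLm.ciSup_mem_iInter_Icc_of_antitone hUm hLU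
  refine ⟨⨆ n, L n, fun j => ?_⟩
  have := Set.mem_iInter.mp h j
  exact this

/-- Denominators. -/
def D (M : ℕ → ℤ) : ℕ → ℤ
  | 0 => 1
  | 1 => 2000
  | (j + 2) => (M (j + 1)) ^ 2 * (D M (j + 1)) ^ 2 - D M j

/-- Numerators. -/
def p (M : ℕ → ℤ) : ℕ → ℤ
  | 0 => 0
  | 1 => 1
  | (j + 2) => (M (j + 1)) ^ 2 * D M (j + 1) * p M (j + 1) - p M j

section

variable (M : ℕ → ℤ) (hM : ∀ j, 1 ≤ M j)

include hM

theorem D_grow (j : ℕ) : 1 ≤ D M j ∧ 1000 * D M j ≤ D M (j + 1) ∧ 2000 ≤ D M (j + 1) := by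
  induction j with
  | zero => simp [D]
  | succ j ih =>
    obtain ⟨h1, h2, h3⟩ := ih
    have h4 : D M (j + 2) = (M (j + 1)) ^ 2 * (D M (j + 1)) ^ 2 - D M j := by rw [D]
    have hM1 : 1 ≤ (M (j + 1)) ^ 2 := one_le_pow₀ (hM _)
    have h5 : (D M (j + 1)) ^ 2 ≤ (M (j + 1)) ^ 2 * (D M (j + 1)) ^ 2 := by
      nlinarith [sq_nonneg (D M (j + 1))]
    have h6 : 2000 * D M (j + 1) ≤ (D M (j + 1)) ^ 2 := by nlinarith
    refine ⟨by omega, ?_, ?_⟩
    · change 1000 * D M (j + 1) ≤ D M (j + 2)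
      rw [h4]; linarith
    · change 2000 ≤ D M (j + 2)
      rw [h4]; linarith

theorem D_le (j : ℕ) : D M (j + 2) ≤ (M (j + 1)) ^ 2 * (D M (j + 1)) ^ 2 := by
  have h4 : D M (j + 2) = (M (j + 1)) ^ 2 * (D M (j + 1)) ^ 2 - D M j := by rw [D]
  have := (D_grow M hM j).1
  omega

theorem D_ge (j : ℕ) : (M (j + 1)) ^ 2 * (D M (j + 1)) ^ 2 ≤ 2 * D M (j + 2) := by
  have h4 : D M (j + 2) = (M (j + 1)) ^ 2 * (D M (j + 1)) ^ 2 - D M j := by rw [D]
  obtain ⟨h1, h2, h3⟩ := D_grow M hM j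
  have hM1 : 1 ≤ (M (j + 1)) ^ 2 := one_le_pow₀ (hM _)
  have h5 : (D M (j + 1)) ^ 2 ≤ (M (j + 1)) ^ 2 * (D M (j + 1)) ^ 2 := by
    nlinarith [sq_nonneg (D M (j + 1))]
  have h6 : 2000 * D M (j + 1) ≤ (D M (j + 1)) ^ 2 := by nlinarith
  rw [h4]; linarith

omit hM in
theorem det (j : ℕ) : p M (j + 1) * D M j - p M j * D M (j + 1) = 1 := by
  induction j with
  | zero => simp [p, D]
  | succ j ih =>
    have h4 : D M (j + 2) = (M (j + 1)) ^ 2 * (D M (j + 1)) ^ 2 - D M j := by rw [D]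
    have h5 : p M (j + 2) = (M (j + 1)) ^ 2 * D M (j + 1) * p M (j + 1) - p M j := by rw [p]
    change p M (j + 2) * D M (j + 1) - p M (j + 1) * D M (j + 2) = 1
    rw [h4, h5]
    linear_combination ih

theorem exists_alpha : ∃ α : ℝ, ∀ j, 1 / (D M (j + 1) : ℝ) ≤ D M j * α - p M j ∧
    D M j * α - p M j ≤ 2 / (D M (j + 1) : ℝ) := by
  have hpos : ∀ j, (0 : ℝ) < D M j := fun j => by
    have := (D_grow M hM j).1
    exact_mod_cast lt_of_lt_of_le one_pos this
  have hdet : ∀ j, (p M (j + 1) : ℝ) * D M j - p M j * D M (j + 1) = 1 := fun j => by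
    exact_mod_cast det M j
  have hstep : ∀ j, (p M (j + 1) : ℝ) / D M (j + 1) = p M j / D M j + 1 / (D M j * D M (j + 1)) := by
    intro j
    have h1 := hpos j
    have h2 := hpos (j + 1)
    field_simp
    linear_combination hdet j
  obtain ⟨α, hα⟩ := nested (fun j => (p M (j + 1) : ℝ) / D M (j + 1))
    (fun j => (p M j : ℝ) / D M j + 2 / (D M j * D M (j + 1)))
    (fun j => by
      have h1 := hpos (j + 1)
      have h2 := hpos (j + 2)
      have h3 := hstep (j + 1)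
      change (p M (j + 1) : ℝ) / D M (j + 1) ≤ (p M (j + 2) : ℝ) / D M (j + 2)
      rw [h3]
      have : 0 < 1 / ((D M (j + 1) : ℝ) * D M (j + 2)) := by positivity
      linarith)
    (fun j => by
      have h0 := hpos j
      have h1 := hpos (j + 1)
      have h2 := hpos (j + 2)
      have h3 := hstep j
      have h4 : (2 : ℝ) / (D M (j + 1) * D M (j + 2)) ≤ 1 / (D M j * D M (j + 1)) := by
        rw [div_le_div_iff₀ (by positivity) (by positivity)]
        have h5 : (1000 * D M j : ℝ) ≤ D M (j + 1) := by exact_mod_cast (D_grow M hM j).2.1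
        have h6 : (1000 * D M (j + 1) : ℝ) ≤ D M (j + 2) := by
          exact_mod_cast (D_grow M hM (j + 1)).2.1
        nlinarith
      have h7 : (2 : ℝ) / (D M j * D M (j + 1)) = 1 / (D M j * D M (j + 1)) +
          1 / (D M j * D M (j + 1)) := by ring
      change (p M (j + 1) : ℝ) / D M (j + 1) + 2 / (D M (j + 1) * D M (j + 2)) ≤ _
      rw [h3, h7]
      linarith)
    (fun j => by
      have h0 := hpos j
      have h1 := hpos (j + 1)
      rw [hstep j]
      have : (1 : ℝ) / (D M j * D M (j + 1)) ≤ 2 / (D M j * D M (j + 1)) := by gcongr; norm_num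
      linarith)
  refine ⟨α, fun j => ?_⟩
  obtain ⟨h1, h2⟩ := hα j
  have h0 := hpos j
  have h0' := hpos (j + 1)
  rw [hstep j] at h1
  constructor
  · have h3 := mul_le_mul_of_nonneg_left h1 h0.le
    have h4 : (D M j : ℝ) * (p M j / D M j + 1 / (D M j * D M (j + 1))) = p M j + 1 / D M (j + 1) := by
      field_simp
    rw [h4] at h3
    linarith
  · have h3 := mul_le_mul_of_nonneg_left h2 h0.le
    have h4 : (D M j : ℝ) * (p M j / D M j + 2 / (D M j * D M (j + 1))) = p M j + 2 / D M (j + 1) := by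
      field_simp
    rw [h4] at h3
    linarith

/-- The coefficients `B_j`. -/
def B (M : ℕ → ℤ) (j : ℕ) : ℤ := ∑ i ∈ Finset.range (j + 1), D M i

/-- The sums of the numerators. -/
def PP (M : ℕ → ℤ) (j : ℕ) : ℤ := ∑ i ∈ Finset.range (j + 1), p M i

omit hM in
theorem B_succ (j : ℕ) : B M (j + 1) = B M j + D M (j + 1) := by
  unfold B; rw [Finset.sum_range_succ]

omit hM in
theorem PP_succ (j : ℕ) : PP M (j + 1) = PP M j + p M (j + 1) := by
  unfold PP; rw [Finset.sum_range_succ]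

theorem B_bounds (j : ℕ) : D M j ≤ B M j ∧ B M j ≤ 2 * D M j := by
  induction j with
  | zero => simp [B, D]
  | succ j ih =>
    obtain ⟨h1, h2, h3⟩ := D_grow M hM j
    rw [B_succ]
    constructor <;> omega

theorem exists_alpha2 (α : ℝ) (hα : ∀ j, 1 / (D M (j + 1) : ℝ) ≤ D M j * α - p M j ∧
    D M j * α - p M j ≤ 2 / (D M (j + 1) : ℝ)) :
    ∃ α₂ : ℝ, ∀ j, 0 ≤ PP M j - (B M j * α + α₂) ∧ PP M j - (B M j * α + α₂) ≤ 4 / (D M (j + 2) : ℝ) := by
  have hpos : ∀ j, (0 : ℝ) < D M j := fun j => by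
    have := (D_grow M hM j).1
    exact_mod_cast lt_of_lt_of_le one_pos this
  set θ : ℕ → ℝ := fun j => D M j * α - p M j with hθ
  set S : ℕ → ℝ := fun j => B M j * α - PP M j with hS
  have hSs : ∀ j, S (j + 1) = S j + θ (j + 1) := by
    intro j
    simp only [hS, hθ]
    rw [B_succ, PP_succ]
    push_cast; ring
  have hθ0 : ∀ j, 0 < θ j := fun j => lt_of_lt_of_le (by have := hpos (j + 1); positivity) (hα j).1
  have hθs : ∀ j, 2 * θ (j + 1) ≤ θ j := by
    intro j
    have h1 := (hα (j + 1)).2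
    have h2 := (hα j).1
    have h3 : (1000 * D M (j + 1) : ℝ) ≤ D M (j + 2) := by exact_mod_cast (D_grow M hM (j + 1)).2.1
    have h4 := hpos (j + 1)
    have h5 := hpos (j + 2)
    have h6 : (2 : ℝ) * (2 / D M (j + 2)) ≤ 1 / D M (j + 1) := by
      rw [mul_div_assoc', div_le_div_iff₀ (by positivity) (by positivity)]
      nlinarith
    calc 2 * θ (j + 1) ≤ 2 * (2 / D M (j + 2)) := by
          have : θ (j + 1) ≤ 2 / D M (j + 2) := h1
          linarith
      _ ≤ 1 / D M (j + 1) := h6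
      _ ≤ θ j := h2
  obtain ⟨s, hs⟩ := nested S (fun j => S j + 2 * θ (j + 1))
    (fun j => by rw [hSs]; linarith [hθ0 (j + 1)])
    (fun j => by
      rw [hSs]
      have := hθs (j + 1)
      have : 2 * θ (j + 1 + 1) ≤ θ (j + 1) := this
      linarith)
    (fun j => by linarith [hθ0 (j + 1)])
  refine ⟨-s, fun j => ?_⟩
  obtain ⟨h1, h2⟩ := hs j
  simp only [hS] at h1 h2
  have h3 := (hα (j + 1)).2
  have h4 : θ (j + 1) ≤ 2 / D M (j + 2) := h3
  have h5 : (4 : ℝ) / D M (j + 2) = 2 * (2 / D M (j + 2)) := by ring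
  constructor
  · linarith
  · rw [h5]; linarith

/-- The abscissa: `B_j x` is close to `z_j` modulo one. -/
theorem exists_x (z : ℕ → ℝ) : ∃ x : ℝ, ∀ j, ∃ t : ℤ,
    |B M j * x - t - z j| ≤ 4 * D M j / (D M (j + 1) : ℝ) := by
  have hpos : ∀ j, (0 : ℝ) < D M j := fun j => by
    have := (D_grow M hM j).1
    exact_mod_cast lt_of_lt_of_le one_pos this
  have hB1 : ∀ j, (D M j : ℝ) ≤ B M j := fun j => by exact_mod_cast (B_bounds M hM j).1
  have hB2 : ∀ j, (B M j : ℝ) ≤ 2 * D M j := fun j => by exact_mod_cast (B_bounds M hM j).2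
  have hBpos : ∀ j, (0 : ℝ) < B M j := fun j => lt_of_lt_of_le (hpos j) (hB1 j)
  -- successive approximations
  let X : ℕ → ℝ := fun j => Nat.rec (z 0 / B M 0) (fun i xi => ((round (B M (i + 1) * xi - z (i + 1)) : ℤ)
    + z (i + 1)) / B M (i + 1)) j
  have hX0 : X 0 = z 0 / B M 0 := rfl
  have hXs : ∀ i, X (i + 1) = ((round (B M (i + 1) * X i - z (i + 1)) : ℤ) + z (i + 1)) / B M (i + 1) :=
    fun i => rfl
  have hXt : ∀ j, ∃ t : ℤ, B M j * X j = t + z j := by
    intro j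
    rcases j with _ | j
    · refine ⟨0, ?_⟩
      have := hBpos 0
      rw [hX0]; field_simp; simp
    · refine ⟨round (B M (j + 1) * X j - z (j + 1)), ?_⟩
      have := hBpos (j + 1)
      rw [hXs]; field_simp
  have hXd : ∀ j, |X (j + 1) - X j| ≤ 1 / B M (j + 1) := by
    intro j
    have h := hBpos (j + 1)
    rw [hXs]
    have h1 : ((round (B M (j + 1) * X j - z (j + 1)) : ℤ) + z (j + 1)) / B M (j + 1) - X j =
        -((B M (j + 1) * X j - z (j + 1)) - (round (B M (j + 1) * X j - z (j + 1)) : ℤ)) / B M (j + 1) := by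
      field_simp; ring
    rw [h1, abs_div, abs_neg, abs_of_pos h]
    gcongr
    exact (abs_sub_round _).trans (by norm_num)
  have hBs : ∀ j, 2 / (B M (j + 1) : ℝ) ≤ 1 / B M j := by
    intro j
    have h1 := hBpos j
    have h2 := hBpos (j + 1)
    rw [div_le_div_iff₀ h2 h1]
    have h3 : (1000 * D M j : ℝ) ≤ D M (j + 1) := by exact_mod_cast (D_grow M hM j).2.1
    have h4 := hB1 (j + 1)
    have h5 := hB2 j
    linarith
  obtain ⟨x, hx⟩ := nested (fun j => X j - 2 / B M (j + 1)) (fun j => X j + 2 / B M (j + 1))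
    (fun j => by
      have h1 := abs_le.mp (hXd j)
      have h2 := hBs (j + 1)
      have h3 : (2 : ℝ) / B M (j + 1) = 1 / B M (j + 1) + 1 / B M (j + 1) := by ring
      rw [h3]
      linarith [h1.1])
    (fun j => by
      have h1 := abs_le.mp (hXd j)
      have h2 := hBs (j + 1)
      have h3 : (2 : ℝ) / B M (j + 1) = 1 / B M (j + 1) + 1 / B M (j + 1) := by ring
      rw [h3]
      linarith [h1.2])
    (fun j => by
      have := hBpos (j + 1)
      have : 0 < 2 / (B M (j + 1) : ℝ) := by positivity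
      linarith)
  refine ⟨x, fun j => ?_⟩
  obtain ⟨t, ht⟩ := hXt j
  refine ⟨t, ?_⟩
  obtain ⟨h1, h2⟩ := hx j
  have h3 : |x - X j| ≤ 2 / B M (j + 1) := by rw [abs_le]; constructor <;> linarith
  have h4 : B M j * x - t - z j = B M j * (x - X j) := by rw [mul_sub, ht]; ring
  rw [h4, abs_mul, abs_of_pos (hBpos j)]
  calc (B M j : ℝ) * |x - X j| ≤ (2 * D M j) * (2 / D M (j + 1)) := by
        apply mul_le_mul (hB2 j) _ (abs_nonneg _) (by have := hpos j; positivity)
        refine h3.trans ?_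
        have := hpos (j + 1)
        have := hB1 (j + 1)
        gcongr
    _ = 4 * D M j / D M (j + 1) := by ring

end

end Pool.Agent.Q3.BadA
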