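import Mathlib
import Pool.Agent.Q3.BadA.Core

/-!
# The three estimates
-/

set_option autoImplicit false

open Filter Topology

namespace Pool.Agent.Q3.BadA

variable (M : ℕ → ℤ) (hM : ∀ j, 1 ≤ M j) (α α₂ x : ℝ)
  (hα : ∀ j, 1 / (D M (j + 1) : ℝ) ≤ D M j * α - p M j ∧
    D M j * α - p M j ≤ 2 / (D M (j + 1) : ℝ))
  (hα₂ : ∀ j, 0 ≤ PP M j - (B M j * α + α₂) ∧ PP M j - (B M j * α + α₂) ≤ 4 / (D M (j + 2) : ℝ))

include hM hα₂

theorem bad_part (y : ℝ) (hy : ∀ j, ∀ N : ℤ, 1 / 5 ≤ |B M (j + 1) * x + y - N|) (q : ℤ)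
    (hq : D M 2 < 40 * |q|) (a b : ℤ) :
    1 / 270 ≤ √(|q| : ℤ) * max |q * α - x - a| |q * α₂ - y - b| := by
  have hDge : ∀ j : ℕ, (j : ℤ) ≤ D M j := by
    intro j
    induction j with
    | zero => simp [D]
    | succ j ih =>
      obtain ⟨h1, h2, h3⟩ := D_grow M hM j
      push_cast
      omega
  have hex : ∃ j : ℕ, 40 * |q| ≤ D M (j + 2) := by
    refine ⟨(40 * |q|).toNat, ?_⟩
    have h1 := hDge ((40 * |q|).toNat + 2)
    push_cast at h1
    have h2 : (0 : ℤ) ≤ 40 * |q| := by positivity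
    omega
  classical
  obtain ⟨j, hj, hjmin⟩ : ∃ j : ℕ, 40 * |q| ≤ D M (j + 2) ∧ ∀ i < j, ¬ (40 * |q| ≤ D M (i + 2)) :=
    ⟨Nat.find hex, Nat.find_spec hex, fun i hi => Nat.find_min hex hi⟩
  obtain ⟨i, rfl⟩ : ∃ i, j = i + 1 := by
    rcases j with _ | i
    · simp only [zero_add] at hj; omega
    · exact ⟨i, rfl⟩
  have hlow : D M (i + 2) < 40 * |q| := by
    have := hjmin i (by omega)
    omega
  -- real versions
  set d : ℝ := ((D M (i + 1) : ℤ) : ℝ) with hd
  have hd1 : 1 ≤ d := by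
    have := (D_grow M hM (i + 1)).1
    rw [hd]; exact_mod_cast this
  have hB1 : d ≤ B M (i + 1) := by rw [hd]; exact_mod_cast (B_bounds M hM (i + 1)).1
  have hB2 : (B M (i + 1) : ℝ) ≤ 2 * d := by rw [hd]; exact_mod_cast (B_bounds M hM (i + 1)).2
  have hqr : ((|q| : ℤ) : ℝ) = |(q : ℝ)| := by push_cast; rfl
  have hsq : d ^ 2 < 80 * |(q : ℝ)| := by
    have h1 := D_ge M hM i
    have h2 : (D M (i + 1)) ^ 2 ≤ (M (i + 1)) ^ 2 * (D M (i + 1)) ^ 2 := by
      have hM1 : 1 ≤ (M (i + 1)) ^ 2 := one_le_pow₀ (hM _)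
      nlinarith [sq_nonneg (D M (i + 1))]
    have h3 : (D M (i + 1)) ^ 2 < 80 * |q| := by linarith
    rw [hd, ← hqr]
    exact_mod_cast h3
  have hup : |(q : ℝ)| ≤ D M (i + 3) / 40 := by
    rw [le_div_iff₀ (by norm_num), ← hqr]
    have : 40 * |q| ≤ D M (i + 3) := hj
    have h2 : |q| * 40 ≤ D M (i + 3) := by linarith
    exact_mod_cast h2
  have hD3 : (0 : ℝ) < D M (i + 3) := by
    have := (D_grow M hM (i + 3)).1
    exact_mod_cast lt_of_lt_of_le one_pos this
  set e : ℝ := PP M (i + 1) - (B M (i + 1) * α + α₂) with he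
  obtain ⟨he0, he1⟩ := hα₂ (i + 1)
  have he1' : e ≤ 4 / (D M (i + 3) : ℝ) := he1
  have hqe : |(q : ℝ)| * e ≤ 1 / 10 := by
    calc |(q : ℝ)| * e ≤ (D M (i + 3) / 40) * (4 / (D M (i + 3) : ℝ)) := by gcongr
      _ = 1 / 10 := by field_simp; norm_num
  set X : ℝ := q * α - x - a with hX
  set Y : ℝ := q * α₂ - y - b with hY
  set m : ℝ := max |X| |Y| with hm
  have hXm : |X| ≤ m := le_max_left _ _
  have hYm : |Y| ≤ m := le_max_right _ _
  have hm0 : 0 ≤ m := (abs_nonneg X).trans hXm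
  have hkey : B M (i + 1) * X + Y = -(q * e) -
      (B M (i + 1) * x + y - ((q * PP M (i + 1) - B M (i + 1) * a - b : ℤ) : ℝ)) := by
    rw [hX, hY, he]; push_cast; ring
  have h1 := hy i (q * PP M (i + 1) - B M (i + 1) * a - b)
  have h2 : 1 / 10 ≤ |B M (i + 1) * X + Y| := by
    rw [hkey]
    have h3 := abs_sub_abs_le_abs_sub
      (B M (i + 1) * x + y - ((q * PP M (i + 1) - B M (i + 1) * a - b : ℤ) : ℝ)) (-(q * e))
    rw [abs_neg, abs_mul, abs_of_nonneg he0] at h3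
    rw [abs_sub_comm]
    linarith
  have h3 : |B M (i + 1) * X + Y| ≤ 3 * d * m := by
    calc |B M (i + 1) * X + Y| ≤ |B M (i + 1) * X| + |Y| := abs_add_le _ _
      _ = B M (i + 1) * |X| + |Y| := by
        rw [abs_mul, abs_of_nonneg (by linarith : (0 : ℝ) ≤ B M (i + 1))]
      _ ≤ 2 * d * m + d * m := by
        have : (B M (i + 1) : ℝ) * |X| ≤ 2 * d * m := by
          apply mul_le_mul hB2 hXm (abs_nonneg _) (by linarith)
        have : |Y| ≤ d * m := by nlinarith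
        linarith
      _ = 3 * d * m := by ring
  have h4 : d / 9 ≤ √(|q| : ℤ) := by
    rw [hqr]
    apply Real.le_sqrt_of_sq_le
    nlinarith
  calc (1 : ℝ) / 270 ≤ d / 9 * m := by nlinarith
    _ ≤ √(|q| : ℤ) * m := by gcongr

include hα

theorem nonbad_part (y : ℝ) (i : ℕ) (hMi : 4 ≤ M (i + 1)) (t : ℤ)
    (ht : |B M (i + 1) * x + y - t| ≤ 2 / (M (i + 1)) ^ 2) :
    ∃ q a b : ℤ, D M (i + 2) ≤ 2 * q ∧
      √(q : ℝ) * max |q * α - x - a| |q * α₂ - y - b| ≤ 34 / M (i + 1) := by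
  set d : ℝ := ((D M (i + 1) : ℤ) : ℝ) with hd
  set d' : ℝ := ((D M (i + 2) : ℤ) : ℝ) with hd'
  set d'' : ℝ := ((D M (i + 3) : ℤ) : ℝ) with hd''
  set μ : ℝ := ((M (i + 1) : ℤ) : ℝ) with hμ
  have hμ4 : 4 ≤ μ := by rw [hμ]; exact_mod_cast hMi
  have hd1 : 2000 ≤ d := by rw [hd]; exact_mod_cast (D_grow M hM i).2.2
  have hle : d' ≤ μ ^ 2 * d ^ 2 := by
    rw [hd', hμ, hd]; exact_mod_cast D_le M hM i
  have hge : μ ^ 2 * d ^ 2 ≤ 2 * d' := by
    rw [hd', hμ, hd]; exact_mod_cast D_ge M hM i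
  have hge' : d' ^ 2 ≤ 2 * d'' := by
    have h1 := D_ge M hM (i + 1)
    have h2 : (D M (i + 2)) ^ 2 ≤ (M (i + 2)) ^ 2 * (D M (i + 2)) ^ 2 := by
      have hM1 : 1 ≤ (M (i + 2)) ^ 2 := one_le_pow₀ (hM _)
      nlinarith [sq_nonneg (D M (i + 2))]
    rw [hd', hd'']; exact_mod_cast h2.trans h1
  have hd'1 : 2000 ≤ d' := by rw [hd']; exact_mod_cast (D_grow M hM (i + 1)).2.2
  have hd''1 : 0 < d'' := by nlinarith
  have h8 : 8 * d ^ 2 ≤ d' := by
    have h16 : 16 ≤ μ ^ 2 := by nlinarith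
    have : 16 * d ^ 2 ≤ μ ^ 2 * d ^ 2 := by gcongr
    linarith
  have h8' : (2 * d + 1) * d ≤ d' / 2 := by nlinarith
  set θ : ℝ := D M (i + 1) * α - p M (i + 1) with hθ
  obtain ⟨hθ1, hθ2⟩ := hα (i + 1)
  have hθ1' : 1 / d' ≤ θ := hθ1
  have hθ2' : θ ≤ 2 / d' := hθ2
  set θ' : ℝ := D M (i + 2) * α - p M (i + 2) with hθ'
  obtain ⟨hτ1, hτ2⟩ := hα (i + 2)
  have hτ1' : 1 / d'' ≤ θ' := hτ1
  have hτ2' : θ' ≤ 2 / d'' := hτ2
  have hθpos : 0 < θ := lt_of_lt_of_le (by positivity) hθ1'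
  have hθ'pos : 0 < θ' := lt_of_lt_of_le (by positivity) hτ1'
  set Bj : ℝ := ((B M (i + 1) : ℤ) : ℝ) with hBj
  have hB1 : d ≤ Bj := by rw [hd, hBj]; exact_mod_cast (B_bounds M hM (i + 1)).1
  have hB2 : Bj ≤ 2 * d := by rw [hd, hBj]; exact_mod_cast (B_bounds M hM (i + 1)).2
  have hBj0 : 0 ≤ Bj := by linarith
  set e : ℝ := PP M (i + 1) - (B M (i + 1) * α + α₂) with he
  obtain ⟨he0, he1⟩ := hα₂ (i + 1)
  have he1' : e ≤ 4 / d'' := he1
  -- the number k
  set u : ℝ := -(Bj * x + y - t) with hu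
  have huabs : |u| ≤ 2 / μ ^ 2 := by rw [hu, abs_neg]; exact ht
  have hBθ : 0 < Bj * θ := by
    have : 0 < Bj := by linarith
    positivity
  set k : ℤ := round (u / (Bj * θ)) with hk
  have hkr : |u - k * (Bj * θ)| ≤ 2 * d / d' := by
    have h1 := abs_sub_round (u / (Bj * θ))
    rw [← hk] at h1
    have h2 : u - k * (Bj * θ) = (u / (Bj * θ) - k) * (Bj * θ) := by
      rw [sub_mul, div_mul_cancel₀ _ hBθ.ne']
    rw [h2, abs_mul, abs_of_pos hBθ]
    calc |u / (Bj * θ) - k| * (Bj * θ) ≤ 1 / 2 * ((2 * d) * (2 / d')) := by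
          apply mul_le_mul h1 _ hBθ.le (by norm_num)
          apply mul_le_mul hB2 hθ2' hθpos.le (by linarith)
      _ = 2 * d / d' := by ring
  have hkabs : |(k : ℝ)| ≤ 2 * d + 1 := by
    have h1 := abs_sub_round (u / (Bj * θ))
    rw [← hk] at h1
    have h2 : |u / (Bj * θ)| ≤ 2 * d := by
      rw [abs_div, abs_of_pos hBθ, div_le_iff₀ hBθ]
      calc |u| ≤ 2 / μ ^ 2 := huabs
        _ ≤ 2 * d * (d * (1 / d')) := by
          rw [div_le_iff₀ (by positivity)]
          have : 2 * d * (d * (1 / d')) * μ ^ 2 = 2 * (μ ^ 2 * d ^ 2) / d' := by field_simp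
          rw [this, le_div_iff₀ (by positivity)]
          linarith
        _ ≤ 2 * d * (Bj * θ) := by gcongr
    have h3 : |(k : ℝ)| ≤ |u / (Bj * θ)| + |u / (Bj * θ) - k| := by
      have := abs_sub_abs_le_abs_sub (k : ℝ) (u / (Bj * θ))
      rw [abs_sub_comm] at this
      linarith
    linarith
  -- the number q0
  set s : ℤ := round (d' * x) with hs
  have hD2pos : 0 < D M (i + 2) := by
    have := (D_grow M hM (i + 2)).1; omega
  set q₀ : ℤ := D M (i + 2) + (s * D M (i + 1)) % D M (i + 2) with hq₀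
  have hq₀1 : D M (i + 2) ≤ q₀ := by
    have := Int.emod_nonneg (s * D M (i + 1)) hD2pos.ne'
    omega
  have hq₀2 : q₀ < 2 * D M (i + 2) := by
    have := Int.emod_lt_of_pos (s * D M (i + 1)) hD2pos
    omega
  obtain ⟨a₀, ha₀⟩ : ∃ a₀ : ℤ, q₀ * p M (i + 2) - s = a₀ * D M (i + 2) := by
    have hdet := det M (i + 1)
    have hdiv := Int.emod_add_mul_ediv (s * D M (i + 1)) (D M (i + 2))
    refine ⟨p M (i + 2) - (s * D M (i + 1)) / D M (i + 2) * p M (i + 2) + s * p M (i + 1), ?_⟩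
    have hdet' : p M (i + 2) * D M (i + 1) - p M (i + 1) * D M (i + 2) = 1 := hdet
    rw [hq₀]
    linear_combination (p M (i + 2)) * hdiv + s * hdet'
  have hX₀ : |(q₀ : ℝ) * α - x - a₀| ≤ 2 / d' := by
    have h1 : (q₀ : ℝ) * α - x - a₀ = (s - d' * x) / d' + q₀ * θ' / d' := by
      have h2 : (q₀ : ℝ) * p M (i + 2) - s = a₀ * d' := by rw [hd']; exact_mod_cast ha₀
      have hd'ne : d' ≠ 0 := by linarith
      rw [← add_div, eq_div_iff hd'ne, hθ', ← hd']
      linear_combination h2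
    rw [h1]
    calc |(s - d' * x) / d' + q₀ * θ' / d'| ≤ |(s - d' * x) / d'| + |q₀ * θ' / d'| := abs_add_le _ _
      _ ≤ (1 / 2) / d' + (1 / 2) / d' := by
        rw [abs_div, abs_div, abs_of_pos (by linarith : 0 < d')]
        have h3 : |(s : ℝ) - d' * x| ≤ 1 / 2 := by
          rw [abs_sub_comm]; exact abs_sub_round _
        have h4 : |(q₀ : ℝ) * θ'| ≤ 1 / 2 := by
          have h5 : (0 : ℝ) ≤ q₀ := by
            have : (0 : ℤ) ≤ q₀ := by omega
            exact_mod_cast this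
          have h6 : (q₀ : ℝ) ≤ 2 * d' := by rw [hd']; exact_mod_cast hq₀2.le
          rw [abs_of_nonneg (by positivity)]
          calc (q₀ : ℝ) * θ' ≤ 2 * d' * (2 / d'') := by gcongr
            _ = 4 * d' / d'' := by ring
            _ ≤ 1 / 2 := by
              rw [div_le_div_iff₀ hd''1 (by norm_num)]
              nlinarith
        gcongr
      _ ≤ 2 / d' := by
        rw [← add_div]
        gcongr
        norm_num
  -- the solution
  refine ⟨q₀ + k * D M (i + 1), a₀ + k * p M (i + 1), (q₀ + k * D M (i + 1)) * PP M (i + 1) -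
    B M (i + 1) * (a₀ + k * p M (i + 1)) - t, ?_, ?_⟩
  · have h1 : |(k : ℝ) * d| ≤ d' / 2 := by
      rw [abs_mul, abs_of_pos (by linarith : 0 < d)]
      have h2 : |(k : ℝ)| * d ≤ (2 * d + 1) * d := by gcongr
      linarith
    have h3 := (abs_le.mp h1).1
    have h4 : (d' : ℝ) ≤ q₀ := by rw [hd']; exact_mod_cast hq₀1
    have h5 : (d' : ℝ) ≤ 2 * (q₀ + k * d) := by linarith
    rw [hd', hd] at h5
    exact_mod_cast h5
  · set q : ℝ := ((q₀ + k * D M (i + 1) : ℤ) : ℝ) with hq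
    have hqe : q = q₀ + k * d := by rw [hq, hd]; push_cast; ring
    have hkd : |(k : ℝ) * d| ≤ 6 * d' := by
      rw [abs_mul, abs_of_pos (by linarith : 0 < d)]
      have h2 : |(k : ℝ)| * d ≤ (2 * d + 1) * d := by gcongr
      linarith
    have hq8 : q ≤ 8 * d' := by
      have h6 : (q₀ : ℝ) ≤ 2 * d' := by rw [hd']; exact_mod_cast hq₀2.le
      have := (abs_le.mp hkd).2
      rw [hqe]; linarith
    have hq0 : 0 ≤ q := by
      have h1 : |(k : ℝ) * d| ≤ d' / 2 := by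
        rw [abs_mul, abs_of_pos (by linarith : 0 < d)]
        have h2 : |(k : ℝ)| * d ≤ (2 * d + 1) * d := by gcongr
        linarith
      have h3 := (abs_le.mp h1).1
      have h4 : (d' : ℝ) ≤ q₀ := by rw [hd']; exact_mod_cast hq₀1
      rw [hqe]; linarith
    set X : ℝ := q * α - x - ((a₀ + k * p M (i + 1) : ℤ) : ℝ) with hX
    have hXe : X = (q₀ * α - x - a₀) + k * θ := by
      rw [hX, hqe, hθ, hd]; push_cast; ring
    have hXabs : |X| ≤ 8 * d / d' := by
      rw [hXe]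
      calc |((q₀ : ℝ) * α - x - a₀) + k * θ| ≤ |(q₀ : ℝ) * α - x - a₀| + |k * θ| := abs_add_le _ _
        _ ≤ 2 / d' + (2 * d + 1) * (2 / d') := by
          rw [abs_mul, abs_of_pos hθpos]
          gcongr
        _ ≤ 8 * d / d' := by
          rw [mul_div_assoc', ← add_div]
          gcongr
          linarith
    set Y : ℝ := q * α₂ - y - (((q₀ + k * D M (i + 1)) * PP M (i + 1) -
      B M (i + 1) * (a₀ + k * p M (i + 1)) - t : ℤ) : ℝ) with hY
    have hYe : Y = (u - k * (Bj * θ)) - q * e - Bj * (q₀ * α - x - a₀) := by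
      rw [hY, hu, he, hBj, hθ, hqe, hd]; push_cast; ring
    have hYabs : |Y| ≤ 8 * d / d' := by
      rw [hYe]
      have h1 : |q * e| ≤ d / d' := by
        rw [abs_of_nonneg (mul_nonneg hq0 he0)]
        calc q * e ≤ 8 * d' * (4 / d'') := by gcongr
          _ = 32 * d' / d'' := by ring
          _ ≤ d / d' := by
            rw [div_le_div_iff₀ hd''1 (by linarith)]
            nlinarith
      have h2 : |Bj * (q₀ * α - x - a₀)| ≤ 4 * d / d' := by
        rw [abs_mul, abs_of_pos (by linarith : 0 < Bj)]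
        calc Bj * |(q₀ : ℝ) * α - x - a₀| ≤ (2 * d) * (2 / d') := by gcongr
          _ = 4 * d / d' := by ring
      calc |(u - k * (Bj * θ)) - q * e - Bj * (q₀ * α - x - a₀)|
          ≤ |(u - k * (Bj * θ)) - q * e| + |Bj * (q₀ * α - x - a₀)| := abs_sub _ _
        _ ≤ |u - k * (Bj * θ)| + |q * e| + |Bj * (q₀ * α - x - a₀)| := by
          gcongr; exact abs_sub _ _
        _ ≤ 2 * d / d' + d / d' + 4 * d / d' := by gcongr
        _ ≤ 8 * d / d' := by
          rw [← add_div, ← add_div]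
          gcongr
          linarith
    have hmax : max |X| |Y| ≤ 8 * d / d' := max_le hXabs hYabs
    have hsq : √q ≤ 3 * √d' := by
      have h1 : 3 * √d' = √(9 * d') := by
        rw [Real.sqrt_mul (by norm_num), show (9 : ℝ) = 3 ^ 2 by norm_num, Real.sqrt_sq (by norm_num)]
      rw [h1]
      apply Real.sqrt_le_sqrt
      linarith
    have hsd : 0 < √d' := Real.sqrt_pos.mpr (by linarith)
    have hss : √d' * √d' = d' := Real.mul_self_sqrt (by linarith)
    have h6 : 12 * (μ * d) ≤ 17 * √d' := by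
      have h7 : (12 * (μ * d)) ^ 2 ≤ (17 * √d') ^ 2 := by
        have : (17 * √d') ^ 2 = 289 * d' := by rw [mul_pow, Real.sq_sqrt (by linarith)]; norm_num
        rw [this]; nlinarith
      exact le_of_sq_le_sq h7 (by positivity)
    have h9 : (3 * √d') * (8 * d / d') = 24 * d / √d' := by
      have hne : d' ≠ 0 := by linarith
      rw [mul_div_assoc', div_eq_div_iff hne hsd.ne']
      linear_combination (24 * d) * hss
    calc √q * max |X| |Y| ≤ (3 * √d') * (8 * d / d') := by gcongr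
      _ = 24 * d / √d' := h9
      _ ≤ 34 / μ := by
        rw [div_le_div_iff₀ hsd (by linarith)]
        linarith

theorem nonsing_part (i : ℕ) (hMi : M (i + 1) = 1) (T : ℕ) (hT : T = (D M (i + 2) / 4).toNat) (q : ℤ)
    (hq0 : 0 < |q|) (hqT : |q| ≤ T) (a b : ℤ) : 1 / 200 < √(T : ℝ) * max |q * α - a| |q * α₂ - b| := by
  by_contra hcon
  push Not at hcon
  set d : ℝ := ((D M (i + 1) : ℤ) : ℝ) with hd
  set d' : ℝ := ((D M (i + 2) : ℤ) : ℝ) with hd'
  set d'' : ℝ := ((D M (i + 3) : ℤ) : ℝ) with hd''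
  have hd1 : 2000 ≤ d := by rw [hd]; exact_mod_cast (D_grow M hM i).2.2
  have hle : d' ≤ d ^ 2 := by
    have := D_le M hM i
    rw [hMi, one_pow, one_mul] at this
    rw [hd', hd]; exact_mod_cast this
  have hge : d ^ 2 ≤ 2 * d' := by
    have := D_ge M hM i
    rw [hMi, one_pow, one_mul] at this
    rw [hd', hd]; exact_mod_cast this
  have hge' : d' ^ 2 ≤ 2 * d'' := by
    have h1 := D_ge M hM (i + 1)
    have h2 : (D M (i + 2)) ^ 2 ≤ (M (i + 2)) ^ 2 * (D M (i + 2)) ^ 2 := by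
      have hM1 : 1 ≤ (M (i + 2)) ^ 2 := one_le_pow₀ (hM _)
      nlinarith [sq_nonneg (D M (i + 2))]
    rw [hd', hd'']; exact_mod_cast h2.trans h1
  have hd'1z : 2000 ≤ D M (i + 2) := (D_grow M hM (i + 1)).2.2
  have hd'1 : 2000 ≤ d' := by rw [hd']; exact_mod_cast hd'1z
  have hd''1 : 0 < d'' := by nlinarith
  have hT1 : (T : ℝ) ≤ d' / 4 := by
    have h1 : (T : ℤ) * 4 ≤ D M (i + 2) := by omega
    have h2 : (T : ℝ) * 4 ≤ d' := by rw [hd']; exact_mod_cast h1
    linarith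
  have hT2 : d' / 8 ≤ T := by
    have h1 : D M (i + 2) ≤ 8 * (T : ℤ) := by omega
    have h2 : d' ≤ 8 * (T : ℝ) := by rw [hd']; exact_mod_cast h1
    linarith
  have hqr : |(q : ℝ)| ≤ d' / 4 := by
    have : |(q : ℝ)| ≤ T := by exact_mod_cast hqT
    linarith
  set X : ℝ := q * α - a with hX
  set Y : ℝ := q * α₂ - b with hY
  set m : ℝ := max |X| |Y| with hm
  have hXm : |X| ≤ m := le_max_left _ _
  have hYm : |Y| ≤ m := le_max_right _ _
  have hm0 : 0 ≤ m := (abs_nonneg X).trans hXm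
  have hsq : d / 4 ≤ √(T : ℝ) := by
    apply Real.le_sqrt_of_sq_le
    nlinarith
  have hdm : d * m ≤ 1 / 50 := by
    have : d / 4 * m ≤ √(T : ℝ) * m := by gcongr
    linarith
  set θ : ℝ := D M (i + 1) * α - p M (i + 1) with hθ
  obtain ⟨hθ1, hθ2⟩ := hα (i + 1)
  have hθ1' : 1 / d' ≤ θ := hθ1
  have hθ2' : θ ≤ 2 / d' := hθ2
  have hθpos : 0 < θ := lt_of_lt_of_le (by positivity) hθ1'
  have hz : ((q * p M (i + 1) - a * D M (i + 1) : ℤ) : ℝ) = d * X - q * θ := by
    rw [hX, hθ, hd]; push_cast; ring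
  have hz0 : q * p M (i + 1) - a * D M (i + 1) = 0 := by
    have h1 : |((q * p M (i + 1) - a * D M (i + 1) : ℤ) : ℝ)| < 1 := by
      rw [hz]
      calc |d * X - q * θ| ≤ |d * X| + |q * θ| := abs_sub _ _
        _ = d * |X| + |(q : ℝ)| * θ := by
          rw [abs_mul, abs_mul, abs_of_pos hθpos, abs_of_pos (by linarith : 0 < d)]
        _ ≤ d * m + (d' / 4) * (2 / d') := by gcongr
        _ = d * m + 1 / 2 := by
          have : d' ≠ 0 := by linarith
          field_simp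
          ring
        _ < 1 := by linarith
    have h2 : |q * p M (i + 1) - a * D M (i + 1)| < 1 := by exact_mod_cast h1
    exact Int.abs_lt_one_iff.mp h2
  have hdvd : D M (i + 1) ∣ q := by
    have hdet : p M (i + 2) * D M (i + 1) - p M (i + 1) * D M (i + 2) = 1 := det M (i + 1)
    refine ⟨q * p M (i + 2) - a * D M (i + 2), ?_⟩
    linear_combination -q * hdet - D M (i + 2) * hz0
  have hqd : d ≤ |(q : ℝ)| := by
    have h1 : D M (i + 1) ≤ |q| := by
      have := Int.le_of_dvd hq0 ((dvd_abs _ _).mpr hdvd)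
      exact this
    rw [hd]; exact_mod_cast h1
  have hXq : d * X = q * θ := by
    rw [hz0] at hz
    push_cast at hz
    linarith
  set Bj : ℝ := ((B M (i + 1) : ℤ) : ℝ) with hBj
  have hB1 : d ≤ Bj := by rw [hd, hBj]; exact_mod_cast (B_bounds M hM (i + 1)).1
  have hB2 : Bj ≤ 2 * d := by rw [hd, hBj]; exact_mod_cast (B_bounds M hM (i + 1)).2
  have hBj0 : 0 ≤ Bj := by linarith
  set e : ℝ := PP M (i + 1) - (B M (i + 1) * α + α₂) with he
  obtain ⟨he0, he1⟩ := hα₂ (i + 1)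
  have he0' : 0 ≤ e := he0
  have he1' : e ≤ 4 / d'' := he1
  have hw : ((q * PP M (i + 1) - B M (i + 1) * a - b : ℤ) : ℝ) = Bj * X + Y + q * e := by
    rw [hX, hY, he, hBj]; push_cast; ring
  have hm1 : m ≤ 1 / 50 := by
    have : m ≤ d * m := by nlinarith
    linarith
  have hqe : |(q : ℝ)| * e ≤ 1 / 10 := by
    calc |(q : ℝ)| * e ≤ (d' / 4) * (4 / d'') := by gcongr
      _ = d' / d'' := by field_simp
      _ ≤ 1 / 10 := by
        rw [div_le_div_iff₀ hd''1 (by norm_num)]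
        nlinarith
  have hw0 : q * PP M (i + 1) - B M (i + 1) * a - b = 0 := by
    have h1 : |((q * PP M (i + 1) - B M (i + 1) * a - b : ℤ) : ℝ)| < 1 := by
      rw [hw]
      calc |Bj * X + Y + q * e| ≤ |Bj * X| + |Y| + |q * e| :=
            (abs_add_le _ _).trans (by gcongr; exact abs_add_le _ _)
        _ = Bj * |X| + |Y| + |(q : ℝ)| * e := by
          rw [abs_mul, abs_mul, abs_of_nonneg hBj0, abs_of_nonneg he0']
        _ ≤ 2 * d * m + 1 / 50 + 1 / 10 := by
          have : Bj * |X| ≤ 2 * d * m := mul_le_mul hB2 hXm (abs_nonneg _) (by linarith)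
          linarith
        _ < 1 := by linarith
    have h2 : |q * PP M (i + 1) - B M (i + 1) * a - b| < 1 := by exact_mod_cast h1
    exact Int.abs_lt_one_iff.mp h2
  rw [hw0] at hw
  push_cast at hw
  have hYe : d * Y = -(q * (Bj * θ + d * e)) := by
    linear_combination -d * hw - Bj * hXq
  have hY1 : |d * Y| = |(q : ℝ)| * (Bj * θ + d * e) := by
    rw [hYe, abs_neg, abs_mul, abs_of_nonneg (by positivity : 0 ≤ Bj * θ + d * e)]
  have hY2 : 1 ≤ |d * Y| := by
    rw [hY1]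
    calc (1 : ℝ) ≤ d * (d * (1 / d')) := by
          rw [← mul_assoc, mul_one_div, le_div_iff₀ (by linarith)]
          nlinarith
      _ ≤ |(q : ℝ)| * (Bj * θ) := by gcongr
      _ ≤ |(q : ℝ)| * (Bj * θ + d * e) := by
        gcongr
        have : 0 ≤ d * e := by positivity
        linarith
  rw [abs_mul, abs_of_pos (by linarith : 0 < d)] at hY2
  have : d * |Y| ≤ d * m := by gcongr
  linarith

end Pool.Agent.Q3.BadA
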