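import Mathlib
import Pool.Agent.Q3.BadA.Parts

/-!
# The pair `(α, α₂)` and the coset `{x} × 𝕋`
-/

set_option autoImplicit false

open Filter Topology

namespace Pool.Agent.Q3.BadA

/-- The multipliers. -/
def MM : ℕ → ℤ
  | 0 => 1
  | (i + 1) => if i % 2 = 0 then ((Nat.unpair (i / 2)).1 : ℤ) + 4 else 1

theorem MM_pos (j : ℕ) : 1 ≤ MM j := by
  rcases j with _ | i
  · simp [MM]
  · rw [MM]
    split_ifs
    · omega
    · exact le_rfl

/-- The targets. -/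
noncomputable def ww : ℕ → ℝ
  | 0 => 0
  | (i + 1) => min (1 / 4) (((Nat.unpair (i / 2)).2 : ℝ) / (((Nat.unpair (i / 2)).1 : ℝ) + 4) ^ 2)

theorem ww_nonneg (j : ℕ) : 0 ≤ ww j := by
  rcases j with _ | i
  · simp [ww]
  · rw [ww]
    apply le_min (by norm_num)
    positivity

theorem ww_le (j : ℕ) : ww j ≤ 1 / 4 := by
  rcases j with _ | i
  · simp [ww]
  · rw [ww]
    exact min_le_left _ _

theorem D_ge_self (M : ℕ → ℤ) (hM : ∀ j, 1 ≤ M j) (j : ℕ) : (j : ℤ) ≤ D M j := by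
  induction j with
  | zero => simp [D]
  | succ j ih =>
    obtain ⟨h1, h2, h3⟩ := D_grow M hM j
    push_cast
    omega

theorem core : ∃ α α₂ x : ℝ,
    (∀ y ∈ Set.Icc (1 / 2 : ℝ) (3 / 4), ∃ c : ℝ, 0 < c ∧ ∃ Q : ℤ, ∀ q a b : ℤ, Q < |q| →
      c ≤ √(|q| : ℤ) * max |q * α - x - a| |q * α₂ - y - b|) ∧
    (∀ y ∈ Set.Icc (0 : ℝ) (1 / 4), ∀ ε : ℝ, 0 < ε → ∀ Q : ℤ, ∃ q a b : ℤ, Q < q ∧
      √(q : ℝ) * max |q * α - x - a| |q * α₂ - y - b| < ε) ∧
    (∃ ε : ℝ, 0 < ε ∧ ∀ T₀ : ℕ, ∃ T : ℕ, T₀ ≤ T ∧ 0 < T ∧ ∀ q a b : ℤ, 0 < |q| → |q| ≤ T →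
      ε < √(T : ℝ) * max |q * α - a| |q * α₂ - b|) := by
  obtain ⟨α, hα⟩ := exists_alpha MM MM_pos
  obtain ⟨α₂, hα₂⟩ := exists_alpha2 MM MM_pos α hα
  obtain ⟨x, hx⟩ := exists_x MM MM_pos (fun j => -ww j)
  have hxw : ∀ i, ∃ t : ℤ, |B MM (i + 1) * x + ww (i + 1) - t| ≤ 1 / (250 * (MM (i + 1)) ^ 2) := by
    intro i
    obtain ⟨t, ht⟩ := hx (i + 1)
    refine ⟨t, ?_⟩
    have h1 : (B MM (i + 1) * x + ww (i + 1) - t : ℝ) = B MM (i + 1) * x - t - -ww (i + 1) := by ring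
    rw [h1]
    refine ht.trans ?_
    have hd1 : (2000 : ℝ) ≤ D MM (i + 1) := by exact_mod_cast (D_grow MM MM_pos i).2.2
    have hM1 : (1 : ℝ) ≤ MM (i + 1) := by exact_mod_cast MM_pos (i + 1)
    have hge : ((MM (i + 1) : ℤ) : ℝ) ^ 2 * (D MM (i + 1) : ℝ) ^ 2 ≤ 2 * D MM (i + 2) := by
      exact_mod_cast D_ge MM MM_pos i
    have hd2 : (0 : ℝ) < D MM (i + 2) := by
      have : (2000 : ℝ) ≤ D MM (i + 2) := by exact_mod_cast (D_grow MM MM_pos (i + 1)).2.2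
      linarith
    change 4 * (D MM (i + 1) : ℝ) / (D MM (i + 2) : ℝ) ≤ _
    rw [div_le_div_iff₀ hd2 (by positivity)]
    have h2 : (0 : ℝ) ≤ ((MM (i + 1) : ℤ) : ℝ) ^ 2 * (D MM (i + 1) : ℝ) := by positivity
    nlinarith
  refine ⟨α, α₂, x, ?_, ?_, ?_⟩
  · intro y hy
    refine ⟨1 / 270, by norm_num, D MM 2, fun q a b hq => ?_⟩
    apply bad_part MM MM_pos α α₂ x hα₂ y _ q (by have := abs_nonneg q; omega) a b
    intro i N
    obtain ⟨t, ht⟩ := hxw i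
    have hM1 : (1 : ℝ) ≤ MM (i + 1) := by exact_mod_cast MM_pos (i + 1)
    have h1 : (1 : ℝ) / (250 * (MM (i + 1)) ^ 2) ≤ 1 / 250 := by
      apply one_div_le_one_div_of_le (by norm_num)
      nlinarith
    have h0 := ww_nonneg (i + 1)
    have h0' := ww_le (i + 1)
    have h2 : 1 / 4 ≤ |(y - ww (i + 1)) - ((N - t : ℤ) : ℝ)| := by
      rcases lt_or_ge 0 (N - t) with h | h
      · have : (1 : ℝ) ≤ ((N - t : ℤ) : ℝ) := by exact_mod_cast h
        rw [abs_sub_comm]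
        refine le_trans ?_ (le_abs_self _)
        linarith [hy.2]
      · have : ((N - t : ℤ) : ℝ) ≤ 0 := by exact_mod_cast h
        refine le_trans ?_ (le_abs_self _)
        linarith [hy.1]
    have h3 : B MM (i + 1) * x + y - N = (B MM (i + 1) * x + ww (i + 1) - t) +
        ((y - ww (i + 1)) - ((N - t : ℤ) : ℝ)) := by push_cast; ring
    rw [h3]
    have h4 := abs_sub_abs_le_abs_sub ((y - ww (i + 1)) - ((N - t : ℤ) : ℝ))
      (-(B MM (i + 1) * x + ww (i + 1) - t))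
    rw [abs_neg, sub_neg_eq_add, add_comm ((y - ww (i + 1)) - ((N - t : ℤ) : ℝ))] at h4
    linarith
  · intro y hy ε hε Q
    obtain ⟨n, hn⟩ := exists_nat_gt (max (34 / ε) (Q : ℝ))
    have hn1 : 34 / ε < n := (le_max_left _ _).trans_lt hn
    have hn2 : (Q : ℝ) < n := (le_max_right _ _).trans_lt hn
    set k : ℕ := ⌊y * ((n : ℝ) + 4) ^ 2⌋₊ with hk
    set i : ℕ := 2 * Nat.pair n k with hi
    have hi2 : i / 2 = Nat.pair n k := by omega
    have hi0 : i % 2 = 0 := by omega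
    have hMi : MM (i + 1) = (n : ℤ) + 4 := by
      rw [MM, if_pos hi0, hi2, Nat.unpair_pair]
    have hn4 : (0 : ℝ) < (n : ℝ) + 4 := by positivity
    have hyk : 0 ≤ y * ((n : ℝ) + 4) ^ 2 := by
      have := hy.1
      positivity
    have hk1 : (k : ℝ) ≤ y * ((n : ℝ) + 4) ^ 2 := Nat.floor_le hyk
    have hk2 : y * ((n : ℝ) + 4) ^ 2 < k + 1 := Nat.lt_floor_add_one _
    have hkd : (k : ℝ) / ((n : ℝ) + 4) ^ 2 ≤ y := by rwa [div_le_iff₀ (by positivity)]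
    have hwi : ww (i + 1) = (k : ℝ) / ((n : ℝ) + 4) ^ 2 := by
      rw [ww, hi2, Nat.unpair_pair]
      exact min_eq_right (hkd.trans hy.2)
    have hyw : |y - ww (i + 1)| ≤ 1 / ((n : ℝ) + 4) ^ 2 := by
      rw [hwi, abs_of_nonneg (by linarith)]
      rw [le_div_iff₀ (by positivity), sub_mul, div_mul_cancel₀ _ (by positivity)]
      linarith
    obtain ⟨t, ht⟩ := hxw i
    have hMr : ((MM (i + 1) : ℤ) : ℝ) = (n : ℝ) + 4 := by rw [hMi]; push_cast; ring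
    rw [hMr] at ht
    obtain ⟨q, a, b, h1, h2⟩ := nonbad_part MM MM_pos α α₂ x hα hα₂ y i (by rw [hMi]; omega) t (by
      rw [hMr]
      have h3 : B MM (i + 1) * x + y - t = (B MM (i + 1) * x + ww (i + 1) - t) +
        (y - ww (i + 1)) := by ring
      rw [h3]
      refine (abs_add_le _ _).trans ?_
      have h4 : (1 : ℝ) / (250 * ((n : ℝ) + 4) ^ 2) ≤ 1 / ((n : ℝ) + 4) ^ 2 := by
        apply one_div_le_one_div_of_le (by positivity)
        have : 0 < ((n : ℝ) + 4) ^ 2 := by positivity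
        linarith
      have h5 : (2 : ℝ) / ((n : ℝ) + 4) ^ 2 = 1 / ((n : ℝ) + 4) ^ 2 + 1 / ((n : ℝ) + 4) ^ 2 := by ring
      rw [h5]
      linarith)
    refine ⟨q, a, b, ?_, ?_⟩
    · have h3 := D_ge_self MM MM_pos (i + 2)
      have h4 : n ≤ Nat.pair n k := Nat.left_le_pair n k
      have h5 : Q < n := by exact_mod_cast hn2
      push_cast at h3
      omega
    · refine h2.trans_lt ?_
      rw [hMr, div_lt_iff₀ hn4]
      rw [div_lt_iff₀ hε] at hn1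
      nlinarith
  · refine ⟨1 / 200, by norm_num, fun T₀ => ?_⟩
    set i : ℕ := 2 * (2 * T₀ + 2) + 1 with hi
    have hMi : MM (i + 1) = 1 := by
      rw [MM, if_neg (by omega)]
    have h3 := D_ge_self MM MM_pos (i + 2)
    refine ⟨(D MM (i + 2) / 4).toNat, ?_, ?_, fun q a b h1 h2 => ?_⟩
    · push_cast at h3
      omega
    · push_cast at h3
      omega
    · exact nonsing_part MM MM_pos α α₂ hα hα₂ i hMi _ rfl q h1 h2 a b

end Pool.Agent.Q3.BadA
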