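import Mathlib
import Pool.Agent.Q3.BadA.Main

/-!
# Badly approximable targets on the torus
-/

set_option autoImplicit false

open Filter Topology MeasureTheory

namespace Pool.Agent.Q3.BadA

/-- The point `A q` of the torus. -/
noncomputable def pt {m n : ℕ} (A : Matrix (Fin m) (Fin n) ℝ) (q : Fin n → ℤ) :
    Fin m → UnitAddCircle := fun i => ((∑ j, A i j * (q j : ℝ) : ℝ) : UnitAddCircle)

/-- The badly approximable targets. -/
def Bad {m n : ℕ} (A : Matrix (Fin m) (Fin n) ℝ) : Set (Fin m → UnitAddCircle) :=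
  {η | 0 < liminf (fun q : Fin n → ℤ => ((‖q‖ ^ ((n : ℝ) / m) * ‖pt A q - η‖ : ℝ) : EReal)) cofinite}

theorem norm_fin_one (q : Fin 1 → ℤ) : ‖q‖ = |(q 0 : ℝ)| := by
  apply le_antisymm
  · rw [pi_norm_le_iff_of_nonneg (abs_nonneg _)]
    intro i
    rw [Subsingleton.elim i 0, Int.norm_eq_abs]
  · have := norm_le_pi_norm q 0
    rwa [Int.norm_eq_abs] at this

theorem circle_norm_le (r : ℝ) (a : ℤ) : ‖(r : UnitAddCircle)‖ ≤ |r - a| := by
  rw [UnitAddCircle.norm_eq]
  exact round_le r a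

theorem circle_norm_eq (r : ℝ) : ∃ a : ℤ, ‖(r : UnitAddCircle)‖ = |r - a| :=
  ⟨round r, UnitAddCircle.norm_eq⟩

theorem norm_two (u v : UnitAddCircle) (w : Fin 2 → UnitAddCircle) (h0 : w 0 = u) (h1 : w 1 = v) :
    ‖w‖ = max ‖u‖ ‖v‖ := by
  apply le_antisymm
  · rw [pi_norm_le_iff_of_nonneg (by positivity)]
    intro i
    fin_cases i
    · change ‖w 0‖ ≤ _
      rw [h0]; exact le_max_left _ _
    · change ‖w 1‖ ≤ _
      rw [h1]; exact le_max_right _ _
  · apply max_le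
    · rw [← h0]; exact norm_le_pi_norm w 0
    · rw [← h1]; exact norm_le_pi_norm w 1

theorem pt_norm (α α₂ x y : ℝ) (q : Fin 1 → ℤ) (a b : ℤ) :
    ‖pt !![α; α₂] q - ![(x : UnitAddCircle), (y : UnitAddCircle)]‖ ≤
      max |(q 0 : ℝ) * α - x - a| |(q 0 : ℝ) * α₂ - y - b| := by
  rw [norm_two (((q 0 : ℝ) * α - x : ℝ) : UnitAddCircle) (((q 0 : ℝ) * α₂ - y : ℝ) : UnitAddCircle) _
    (by simp [pt, mul_comm]) (by simp [pt, mul_comm])]
  exact max_le_max (circle_norm_le _ _) (circle_norm_le _ _)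

theorem pt_norm_eq (α α₂ x y : ℝ) (q : Fin 1 → ℤ) : ∃ a b : ℤ,
    ‖pt !![α; α₂] q - ![(x : UnitAddCircle), (y : UnitAddCircle)]‖ =
      max |(q 0 : ℝ) * α - x - a| |(q 0 : ℝ) * α₂ - y - b| := by
  obtain ⟨a, ha⟩ := circle_norm_eq ((q 0 : ℝ) * α - x)
  obtain ⟨b, hb⟩ := circle_norm_eq ((q 0 : ℝ) * α₂ - y)
  refine ⟨a, b, ?_⟩
  rw [norm_two (((q 0 : ℝ) * α - x : ℝ) : UnitAddCircle) (((q 0 : ℝ) * α₂ - y : ℝ) : UnitAddCircle) _
    (by simp [pt, mul_comm]) (by simp [pt, mul_comm]), ha, hb]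

theorem mem_bad (α α₂ x y : ℝ) (c : ℝ) (hc : 0 < c) (Q : ℤ) (h : ∀ q a b : ℤ, Q < |q| →
      c ≤ √(|q| : ℤ) * max |q * α - x - a| |q * α₂ - y - b|) :
    ![(x : UnitAddCircle), (y : UnitAddCircle)] ∈ Bad !![α; α₂] := by
  have h1 : ∀ᶠ q : Fin 1 → ℤ in cofinite, (c : EReal) ≤
      ((‖q‖ ^ (((1 : ℕ) : ℝ) / ((2 : ℕ) : ℝ)) *
        ‖pt !![α; α₂] q - ![(x : UnitAddCircle), (y : UnitAddCircle)]‖ : ℝ) : EReal) := by
    have hfin : {q : Fin 1 → ℤ | ¬ Q < |q 0|}.Finite := by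
      have : {q : Fin 1 → ℤ | ¬ Q < |q 0|} ⊆ (fun k : ℤ => (fun _ : Fin 1 => k)) '' (Set.Icc (-|Q|) |Q|) := by
        intro q hq
        refine ⟨q 0, ?_, ?_⟩
        · simp only [Set.mem_setOf_eq, not_lt] at hq
          have := hq.trans (le_abs_self Q)
          exact abs_le.mp this
        · funext i; rw [Subsingleton.elim i 0]
      exact ((Set.finite_Icc _ _).image _).subset this
    filter_upwards [hfin.compl_mem_cofinite] with q hq
    simp only [Set.mem_compl_iff, Set.mem_setOf_eq, not_not] at hq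
    obtain ⟨a, b, hab⟩ := pt_norm_eq α α₂ x y q
    rw [hab, norm_fin_one]
    have h2 := h (q 0) a b hq
    have h3 : |(q 0 : ℝ)| ^ (((1 : ℕ) : ℝ) / ((2 : ℕ) : ℝ)) = √(|q 0| : ℤ) := by
      rw [Real.sqrt_eq_rpow]; push_cast; norm_num
    rw [h3]
    exact_mod_cast h2
  have h2 : (c : EReal) ≤ liminf (fun q : Fin 1 → ℤ => ((‖q‖ ^ (((1 : ℕ) : ℝ) / ((2 : ℕ) : ℝ)) *
        ‖pt !![α; α₂] q - ![(x : UnitAddCircle), (y : UnitAddCircle)]‖ : ℝ) : EReal)) cofinite :=
    le_liminf_of_le (by isBoundedDefault) h1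
  exact lt_of_lt_of_le (by exact_mod_cast hc) h2

theorem not_mem_bad (α α₂ x y : ℝ) (h : ∀ ε : ℝ, 0 < ε → ∀ Q : ℤ, ∃ q a b : ℤ, Q < q ∧
      √(q : ℝ) * max |q * α - x - a| |q * α₂ - y - b| < ε) :
    ![(x : UnitAddCircle), (y : UnitAddCircle)] ∉ Bad !![α; α₂] := by
  intro hmem
  obtain ⟨c, hc0, hc⟩ := EReal.lt_iff_exists_real_btwn.mp hmem
  have hc0' : 0 < c := by exact_mod_cast hc0
  have h1 := eventually_lt_of_lt_liminf hc (by isBoundedDefault)
  rw [eventually_cofinite] at h1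
  -- bounded set
  obtain ⟨Q, hQ⟩ := ((h1.image (fun q : Fin 1 → ℤ => q 0)).bddAbove)
  obtain ⟨q, a, b, hq, hlt⟩ := h c hc0' (max Q 0)
  have hqQ : Q < q := (le_max_left _ _).trans_lt hq
  have hq0 : 0 < q := (le_max_right _ _).trans_lt hq
  have h2 : ¬ ((fun _ : Fin 1 => q) ∈ {q : Fin 1 → ℤ | ¬ ((c : EReal) <
    ((‖q‖ ^ (((1 : ℕ) : ℝ) / ((2 : ℕ) : ℝ)) *
        ‖pt !![α; α₂] q - ![(x : UnitAddCircle), (y : UnitAddCircle)]‖ : ℝ) : EReal))}) := by
    intro hm
    have := hQ ⟨_, hm, rfl⟩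
    change q ≤ Q at this
    omega
  rw [Set.mem_setOf_eq, not_not] at h2
  have h3 : c < ‖(fun _ : Fin 1 => q)‖ ^ (((1 : ℕ) : ℝ) / ((2 : ℕ) : ℝ)) *
        ‖pt !![α; α₂] (fun _ : Fin 1 => q) - ![(x : UnitAddCircle), (y : UnitAddCircle)]‖ := by
    exact_mod_cast h2
  have h4 := pt_norm α α₂ x y (fun _ : Fin 1 => q) a b
  rw [norm_fin_one] at h3
  have h5 : |(q : ℝ)| ^ (((1 : ℕ) : ℝ) / ((2 : ℕ) : ℝ)) = √(q : ℝ) := by
    rw [Real.sqrt_eq_rpow, abs_of_pos (by exact_mod_cast hq0)]; push_cast; norm_num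
  rw [h5] at h3
  have h6 : √(q : ℝ) * ‖pt !![α; α₂] (fun _ : Fin 1 => q) - ![(x : UnitAddCircle), (y : UnitAddCircle)]‖ ≤
      √(q : ℝ) * max |(q : ℝ) * α - x - a| |(q : ℝ) * α₂ - y - b| := by
    gcongr
  linarith

/-- `H` is a subtorus of dimension `k`: the image of an injective continuous homomorphism of the
`k`-dimensional torus. -/
def IsSubtorus {m : ℕ} (k : ℕ) (H : AddSubgroup (Fin m → UnitAddCircle)) : Prop :=
  ∃ f : (Fin k → UnitAddCircle) →+ (Fin m → UnitAddCircle), Continuous f ∧ Function.Injective f ∧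
    f.range = H

/-- The homomorphism `u ↦ (0, u)`. -/
def incl : (Fin 1 → UnitAddCircle) →+ (Fin 2 → UnitAddCircle) where
  toFun u := ![0, u 0]
  map_zero' := by
    funext i; fin_cases i <;> rfl
  map_add' u v := by
    funext i; fin_cases i
    · simp
    · simp

theorem incl_cont : Continuous incl := by
  apply continuous_pi
  intro i
  fin_cases i
  · exact continuous_const
  · exact continuous_apply 0

theorem incl_inj : Function.Injective incl := by
  intro u v h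
  funext i
  rw [Subsingleton.elim i 0]
  have := congrFun h 1
  exact this

theorem incl_range : IsSubtorus 1 incl.range := ⟨incl, incl_cont, incl_inj, rfl⟩

theorem mem_range (v : Fin 2 → UnitAddCircle) : v ∈ incl.range ↔ v 0 = 0 := by
  constructor
  · rintro ⟨u, rfl⟩; rfl
  · intro h
    refine ⟨fun _ => v 1, ?_⟩
    funext i
    fin_cases i
    · exact h.symm
    · rfl

theorem range_closed : IsClosed (incl.range : Set (Fin 2 → UnitAddCircle)) := by
  rw [AddMonoidHom.coe_range]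
  exact (isCompact_range incl_cont).isClosed

theorem range_connected : IsConnected (incl.range : Set (Fin 2 → UnitAddCircle)) := by
  rw [AddMonoidHom.coe_range]
  exact isConnected_range incl_cont

/-- The Haar measure on the coset `{x} × 𝕋`. -/
noncomputable def mu (x : UnitAddCircle) : Measure (Fin 2 → UnitAddCircle) :=
  Measure.map (fun y : UnitAddCircle => ![x, y]) volume

theorem coset_cont (x : UnitAddCircle) : Continuous (fun y : UnitAddCircle => ![x, y]) := by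
  apply continuous_pi
  intro i
  fin_cases i
  · exact continuous_const
  · exact continuous_id

theorem mu_prob (x : UnitAddCircle) : IsProbabilityMeasure (mu x) := by
  have : IsProbabilityMeasure (volume : Measure UnitAddCircle) := ⟨UnitAddCircle.measure_univ⟩
  exact Measure.isProbabilityMeasure_map (coset_cont x).measurable.aemeasurable

theorem mu_supp (x : UnitAddCircle) : mu x {v | v - ![x, 0] ∉ incl.range} = 0 := by
  have h1 : {v : Fin 2 → UnitAddCircle | v - ![x, 0] ∉ incl.range} = {v | v 0 ≠ x} := by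
    ext v
    simp only [Set.mem_ofPred_eq, mem_range, Pi.sub_apply, ne_eq]
    rw [show (![x, 0] : Fin 2 → UnitAddCircle) 0 = x from rfl, sub_eq_zero]
  rw [h1, mu, Measure.map_apply (coset_cont x).measurable]
  · convert measure_empty (μ := (volume : Measure UnitAddCircle))
    ext y
    simp
  · exact (isClosed_singleton.preimage (continuous_apply (0 : Fin 2))).isOpen_compl.measurableSet

theorem mu_inv (x : UnitAddCircle) (h : Fin 2 → UnitAddCircle) (hh : h ∈ incl.range) :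
    (mu x).map (fun v => h + v) = mu x := by
  rw [mem_range] at hh
  have hc1 : Measurable (fun v : Fin 2 → UnitAddCircle => h + v) :=
    (by fun_prop : Continuous (fun v : Fin 2 → UnitAddCircle => h + v)).measurable
  have hc2 : Measurable (fun y : UnitAddCircle => h 1 + y) :=
    (by fun_prop : Continuous (fun y : UnitAddCircle => h 1 + y)).measurable
  rw [mu, Measure.map_map hc1 (coset_cont x).measurable]
  have h1 : (fun v => h + v) ∘ (fun y : UnitAddCircle => ![x, y]) =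
      (fun y : UnitAddCircle => ![x, y]) ∘ (fun y => h 1 + y) := by
    funext y i
    fin_cases i
    · simp [hh]
    · simp
  rw [h1, ← Measure.map_map (coset_cont x).measurable hc2, map_add_left_eq_self]

theorem vol_pos (a b : ℝ) (hab : a < b) :
    0 < volume ((fun t : ℝ => (t : UnitAddCircle)) '' Set.Ioo a b) := by
  have h1 : IsOpen ((fun t : ℝ => (t : UnitAddCircle)) '' Set.Ioo a b) :=
    QuotientAddGroup.isOpenMap_coe _ isOpen_Ioo
  exact h1.measure_pos volume ((Set.nonempty_Ioo.mpr hab).image _)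

theorem mu_bad_pos (α α₂ x : ℝ) (h : ∀ y ∈ Set.Icc (1 / 2 : ℝ) (3 / 4),
    ![(x : UnitAddCircle), (y : UnitAddCircle)] ∈ Bad !![α; α₂]) : 0 < mu x (Bad !![α; α₂]) := by
  have h1 := Measure.le_map_apply (μ := (volume : Measure UnitAddCircle))
    (coset_cont (x : UnitAddCircle)).measurable.aemeasurable (Bad !![α; α₂])
  refine lt_of_lt_of_le ?_ h1
  refine lt_of_lt_of_le (vol_pos (1 / 2) (3 / 4) (by norm_num)) (measure_mono ?_)
  rintro _ ⟨y, hy, rfl⟩
  exact h y ⟨hy.1.le, hy.2.le⟩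

theorem mu_bad_lt (α α₂ x : ℝ) (h : ∀ y ∈ Set.Icc (0 : ℝ) (1 / 4),
    ![(x : UnitAddCircle), (y : UnitAddCircle)] ∉ Bad !![α; α₂]) : mu x (Bad !![α; α₂]) < 1 := by
  have hprob := mu_prob (x : UnitAddCircle)
  set C : Set (Fin 2 → UnitAddCircle) := (fun y : UnitAddCircle => ![(x : UnitAddCircle), y]) ''
    ((fun t : ℝ => (t : UnitAddCircle)) '' Set.Icc 0 (1 / 4)) with hC
  have hCc : IsCompact C := ((isCompact_Icc).image (AddCircle.continuous_mk' 1)).image (coset_cont _)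
  have hCm : MeasurableSet C := hCc.isClosed.measurableSet
  have h1 : Bad !![α; α₂] ⊆ Cᶜ := by
    intro v hv hvC
    obtain ⟨_, ⟨y, hy, rfl⟩, rfl⟩ := hvC
    exact h y hy hv
  have h2 : 0 < mu x C := by
    rw [mu, Measure.map_apply (coset_cont _).measurable hCm]
    refine lt_of_lt_of_le (vol_pos 0 (1 / 4) (by norm_num)) (measure_mono ?_)
    rintro _ ⟨y, hy, rfl⟩
    exact ⟨_, ⟨y, ⟨hy.1.le, hy.2.le⟩, rfl⟩, rfl⟩
  refine (measure_mono h1).trans_lt ?_
  rw [prob_compl_eq_one_sub hCm]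
  exact ENNReal.sub_lt_self ENNReal.one_ne_top one_ne_zero h2.ne'

end Pool.Agent.Q3.BadA
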